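import Pool.Agent.H37.Wsat1

namespace Pool.Agent.Results.MP_2640cc_co.Lower

open Pool.Agent.H37.Wsat SimpleGraph

theorem result (s j : ℕ) (hs : 1 ≤ s) (G : SimpleGraph (Fin (2 * s + j)))
    (hG : WeaklySaturated (completeBipartiteGraph (Fin s) (Fin s)) G) :
    ((2 * s + j).choose 2 : ℤ) - (j + 1) * (2 * s - 2) - (j + 2).choose 2 ≤
      (G.edgeSet.ncard : ℤ) := by
  classical
  obtain ⟨-, l, hn, hl, hf⟩ := hG
  choose f a b hab he using hf
  have hy : ∀ i : Fin l.length, ∃ y, ∀ u v, (Phi (2 * s + j) (j + 1) y (u, v) ≠ 0 ↔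
      (u ∈ Finset.univ.image (fun x => f i (Sum.inl x)) ∧
        v ∈ Finset.univ.image (fun x => f i (Sum.inr x))) ∨
      (u ∈ Finset.univ.image (fun x => f i (Sum.inr x)) ∧
        v ∈ Finset.univ.image (fun x => f i (Sum.inl x)))) := by
    intro i
    have hd : Disjoint (Finset.univ.image (fun x => f i (Sum.inl x)))
        (Finset.univ.image (fun x => f i (Sum.inr x))) := by
      rw [Finset.disjoint_left]
      intro u h1 h2
      obtain ⟨x, -, rfl⟩ := Finset.mem_image.1 h1
      obtain ⟨z, -, hz⟩ := Finset.mem_image.1 h2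
      exact absurd ((f i).injective hz) (by simp)
    refine key _ j _ _ hd ?_
    rw [Finset.card_compl, Finset.card_union_of_disjoint hd,
      Finset.card_image_of_injective (f := fun x => f i (Sum.inl x)) _
        (fun x z h => Sum.inl_injective ((f i).injective h)),
      Finset.card_image_of_injective (f := fun x => f i (Sum.inr x)) _
        (fun x z h => Sum.inr_injective ((f i).injective h))]
    simp only [Fintype.card_fin, Finset.card_univ]
    omega
  choose y hy using hy
  have hli : LinearIndependent ℚ (fun i => Phi (2 * s + j) (j + 1) (y i)) := by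
    refine tri _ (fun i => (f i (a i), f i (b i))) (fun i => ?_) (fun i k hik => ?_)
    · rw [hy]
      have := hab i
      rcases ha : a i with x | x <;> rcases hb : b i with z | z <;> rw [ha, hb] at this
      · simp at this
      · exact Or.inl ⟨Finset.mem_image_of_mem _ (Finset.mem_univ x),
          Finset.mem_image_of_mem _ (Finset.mem_univ z)⟩
      · exact Or.inr ⟨Finset.mem_image_of_mem _ (Finset.mem_univ x),
          Finset.mem_image_of_mem _ (Finset.mem_univ z)⟩
      · simp at this
    · by_contra hne
      have hadj : (G ⊔ fromEdgeSet {e | e ∈ l.take (i + 1)}).Adj (f k (a k)) (f k (b k)) := by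
        rcases (hy i _ _).1 hne with ⟨h1, h2⟩ | ⟨h1, h2⟩
        · obtain ⟨x, -, hx⟩ := Finset.mem_image.1 h1
          obtain ⟨z, -, hz⟩ := Finset.mem_image.1 h2
          rw [← hx, ← hz]
          exact (f i).toHom.map_adj (by simp)
        · obtain ⟨x, -, hx⟩ := Finset.mem_image.1 h1
          obtain ⟨z, -, hz⟩ := Finset.mem_image.1 h2
          rw [← hx, ← hz]
          exact (f i).toHom.map_adj (by simp)
      have hmem : s(f k (a k), f k (b k)) ∈ Gᶜ.edgeSet := by
        rw [he k]
        exact (hl _).1 (List.getElem_mem _)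
      rcases hadj with h | h
      · exact ((compl_adj _ _ _).1 hmem).2 h
      · have h1 : s(f k (a k), f k (b k)) ∈ l.take (i + 1) := ((fromEdgeSet_adj _).1 h).1
        rw [he k] at h1
        obtain ⟨r, hr, hr2⟩ := List.mem_take_iff_getElem.1 h1
        have hr' : r < l.length := lt_of_lt_of_le hr (min_le_right _ _)
        have hr'' : r < i + 1 := lt_of_lt_of_le hr (min_le_left _ _)
        have : r = (k : ℕ) := (List.Nodup.getElem_inj_iff hn).1 hr2
        have : (i : ℕ) < k := hik
        omega
  have hle : l.length ≤ Module.finrank ℚ (LinearMap.range (Phi (2 * s + j) (j + 1))) := by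
    have : LinearIndependent ℚ (fun i => (⟨Phi (2 * s + j) (j + 1) (y i), ⟨y i, rfl⟩⟩ :
        LinearMap.range (Phi (2 * s + j) (j + 1)))) :=
      LinearIndependent.of_comp (LinearMap.range (Phi (2 * s + j) (j + 1))).subtype hli
    simpa using this.fintype_card_le_finrank
  have hr := rank_le (2 * s + j) (j + 1) (by omega)
  have hlen : Gᶜ.edgeSet.ncard = l.length := by
    have : Gᶜ.edgeSet = ↑l.toFinset := by
      ext e
      simp [hl]
    rw [this, Set.ncard_coe_finset, List.toFinset_card_of_nodup hn]
  have htot : G.edgeSet.ncard + Gᶜ.edgeSet.ncard = (2 * s + j).choose 2 := by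
    rw [← Set.ncard_union_eq (disjoint_edgeSet.2 disjoint_compl_right), ← edgeSet_sup,
      sup_compl_eq_top, ← coe_edgeFinset, Set.ncard_coe_finset,
      card_edgeFinset_top_eq_card_choose_two, Fintype.card_fin]
  have hc : 2 * (j + 2).choose 2 = (j + 2) * (j + 1) := by
    rw [Nat.choose_two_right, show j + 2 - 1 = j + 1 from rfl]
    exact Nat.mul_div_cancel' (by
      have := Nat.even_mul_succ_self (j + 1)
      rw [mul_comm]
      exact this.two_dvd)
  have e1 : (l.length : ℤ) + ((j + 2).choose 2 : ℕ) ≤ (j + 1) * (2 * s + j) := by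
    have : l.length + (j + 2).choose 2 ≤ (j + 1) * (2 * s + j) := by
      have : (j + 1 + 1) = j + 2 := rfl
      rw [this] at hr
      omega
    exact_mod_cast this
  have e2 : (G.edgeSet.ncard : ℤ) + l.length = ((2 * s + j).choose 2 : ℕ) := by
    rw [← hlen]
    exact_mod_cast htot
  have e3 : 2 * (((j + 2).choose 2 : ℕ) : ℤ) = (j + 2) * (j + 1) := by exact_mod_cast hc
  nlinarith

end Pool.Agent.Results.MP_2640cc_co.Lower
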